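import Mathlib

/-!
Definitions for the hand-in PersistentColours.
-/

set_option autoImplicit false

namespace Pool.Agent.Work.MP_69fea5_lc.PT.Defs

open Classical in
/-- The characteristic function of a set of natural numbers, as an oracle or as a function to
compute. -/
noncomputable def charFun (S : Set ℕ) : ℕ →. ℕ := fun n => Part.some (if n ∈ S then 1 else 0)

/-- The sets arithmetical in `Z`: the smallest class of sets of natural numbers that contains the
sets computable from `Z` and is closed under complement, intersection and projection. -/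
inductive ArithIn (Z : Set ℕ) : Set ℕ → Prop
  | base {S : Set ℕ} (h : RecursiveIn {charFun Z} (charFun S)) : ArithIn Z S
  | compl {S : Set ℕ} (h : ArithIn Z S) : ArithIn Z Sᶜ
  | inter {S T : Set ℕ} (hS : ArithIn Z S) (hT : ArithIn Z T) : ArithIn Z (S ∩ T)
  | proj {S : Set ℕ} (h : ArithIn Z S) : ArithIn Z {n | ∃ m, Nat.pair n m ∈ S}

/-- The finite sums `FS(X)`: all sums of finite nonempty subsets of `X` (no repetitions). -/
def FS (X : Set ℕ) : Set ℕ :=
  {n | ∃ F : Finset ℕ, F.Nonempty ∧ (↑F : Set ℕ) ⊆ X ∧ ∑ x ∈ F, x = n}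

/-- `X` is a solution of colour `i` to the instance `c` of Hindman's theorem: `X` is an infinite
set of positive integers and every element of `FS(X)` has colour `i`. -/
def IsSolution {k : ℕ} (c : ℕ → Fin k) (i : Fin k) (X : Set ℕ) : Prop :=
  X.Infinite ∧ (∀ x ∈ X, 0 < x) ∧ ∀ n ∈ FS X, c n = i

/-- `A` is an IP*-set: it meets `FS(X)` for every infinite set `X` of positive integers. -/
def IPStar (A : Set ℕ) : Prop :=
  ∀ X : Set ℕ, X.Infinite → (∀ x ∈ X, 0 < x) → ∃ n ∈ FS X, n ∈ A

/-- The oracle `X` together with all sets arithmetical in `Z` as oracles. A computation uses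
finitely many of these, so `RecursiveIn (oracles Z X) f` says that `f` is partial recursive in
`X ⊕ A` for some `A` arithmetical in `Z`. -/
def oracles (Z X : Set ℕ) : Set (ℕ →. ℕ) :=
  {charFun X} ∪ {g | ∃ A : Set ℕ, ArithIn Z A ∧ g = charFun A}

/-- `X` avoids the set `C` over `Z`: no set `X ⊕ A` with `A` arithmetical in `Z` enumerates or
computes `C`. -/
def Avoids (Z X C : Set ℕ) : Prop :=
  (∀ f : ℕ →. ℕ, RecursiveIn (oracles Z X) f → ¬ ∀ m, m ∈ C ↔ (f m).Dom) ∧
    ¬ RecursiveIn (oracles Z X) (charFun C)

end Pool.Agent.Work.MP_69fea5_lc.PT.Defs
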