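import Pool.Agent.Work.MP_69fea5_lc.PT.Arith

/-!
The least path through an arithmetical relation is arithmetical.
-/

set_option autoImplicit false

namespace Pool.Agent.Work.MP_69fea5_lc.PT

open Encodable

/-- The initial segment of length `n` of a sequence. -/
def pre {α : Type*} (g : ℕ → α) (n : ℕ) : List α := (List.range n).map g

section

variable {α : Type*}

@[simp] theorem pre_zero (g : ℕ → α) : pre g 0 = [] := rfl

theorem pre_succ (g : ℕ → α) (n : ℕ) : pre g (n + 1) = pre g n ++ [g n] := by
  simp [pre, List.range_succ]

@[simp] theorem pre_length (g : ℕ → α) (n : ℕ) : (pre g n).length = n := by simp [pre]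

theorem pre_prefix (g : ℕ → α) {m n : ℕ} (h : m ≤ n) : pre g m <+: pre g n := by
  induction h with
  | refl => exact List.prefix_refl _
  | step _ ih =>
    rw [pre_succ]
    exact ih.trans (List.prefix_append _ _)

/-- path of a choice function -/
noncomputable def path (s : List α → α) : ℕ → List α
  | 0 => []
  | n + 1 => path s n ++ [s (path s n)]

theorem pre_path (s : List α → α) (n : ℕ) : pre (fun n => s (path s n)) n = path s n := by
  induction n with
  | zero => rfl
  | succ n ih => rw [pre_succ, ih]; rfl

end

theorem leastPath [Orc] {α : Type*} [Primcodable α] [DecidableEq α] {R : List α → α → Prop}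
    (hR : AR fun p : List α × α => R p.1 p.2) {Q : List α → Prop} (h0 : Q [])
    (h1 : ∀ l, Q l → ∃ a, R l a) (h2 : ∀ l a, Q l → R l a → Q (l ++ [a])) :
    ∃ g : ℕ → α, (∀ n, R (pre g n) (g n)) ∧ (∀ n, Q (pre g n)) ∧
      AR fun l : List α => l = pre g l.length := by
  classical
  have hmin : ∀ l, Q l → ∃ a, R l a ∧ ∀ a', R l a' → encode a ≤ encode a' := by
    intro l hl
    obtain ⟨a, ha⟩ := h1 l hl
    have hex : ∃ n, ∃ a, R l a ∧ encode a = n := ⟨_, a, ha, rfl⟩
    obtain ⟨b, hb, hn⟩ := Nat.find_spec hex
    refine ⟨b, hb, fun a' ha' => ?_⟩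
    rw [hn]
    exact Nat.find_min' hex ⟨a', ha', rfl⟩
  obtain ⟨a₀, -⟩ := h1 [] h0
  let s : List α → α := fun l =>
    if h : ∃ a, R l a ∧ ∀ a', R l a' → encode a ≤ encode a' then h.choose else a₀
  have hs : ∀ l, Q l → R l (s l) ∧ ∀ a', R l a' → encode (s l) ≤ encode a' := by
    intro l hl
    have h := hmin l hl
    have : s l = h.choose := dif_pos h
    rw [this]
    exact h.choose_spec
  have hQ : ∀ n, Q (path s n) := by
    intro n
    induction n with
    | zero => exact h0
    | succ n ih => exact h2 _ _ ih (hs _ ih).1
  refine ⟨fun n => s (path s n), fun n => ?_, fun n => ?_, ?_⟩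
  · rw [pre_path]
    exact (hs _ (hQ n)).1
  · rw [pre_path]
    exact hQ n
  · have hD : AR fun l : List α => ∀ l₁ : List α, ∀ a : α, ∀ l₂ : List α, l₁ ++ a :: l₂ = l →
        R l₁ a ∧ ∀ a', R l₁ a' → encode a ≤ encode a' := by
      refine AR.all (AR.all (AR.all (AR.imp ?_ (AR.and ?_ ?_))))
      · exact AR.eq (Primrec.list_append.comp (Primrec.snd.comp (Primrec.fst.comp .fst))
          (Primrec.list_cons.comp (Primrec.snd.comp .fst) .snd))
          (Primrec.fst.comp (Primrec.fst.comp .fst))
      · exact hR.sub (f := fun x : ((List α × List α) × α) × List α => (x.1.1.2, x.1.2))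
          (Primrec.pair (Primrec.snd.comp (Primrec.fst.comp .fst)) (Primrec.snd.comp .fst))
      · refine AR.all (AR.imp ?_ ?_)
        · exact hR.sub (f := fun x : (((List α × List α) × α) × List α) × α => (x.1.1.1.2, x.2))
            (Primrec.pair (Primrec.snd.comp (Primrec.fst.comp (Primrec.fst.comp .fst))) .snd)
        · exact AR.le (Primrec.encode.comp (Primrec.snd.comp (Primrec.fst.comp .fst)))
            (Primrec.encode.comp .snd)
    refine hD.congr fun l => ?_
    simp only [pre_path]
    constructor
    · intro h
      induction l using List.reverseRecOn with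
      | nil => rfl
      | append_singleton l a ih =>
        have ih' := ih fun l₁ b l₂ hl => h l₁ b (l₂ ++ [a]) (by rw [← hl]; simp)
        have h3 := h l a [] rfl
        rw [List.length_append, List.length_singleton]
        have h4 : path s (l.length + 1) = path s l.length ++ [s (path s l.length)] := rfl
        rw [h4, ← ih']
        have h5 := hs l (by rw [ih']; exact hQ _)
        have h6 : encode (s l) = encode a := le_antisymm (h5.2 a h3.1) (h3.2 _ h5.1)
        rw [Encodable.encode_injective h6]
    · intro h l₁ a l₂ hl
      have h3 : ∀ n : ℕ, ∀ l₁ : List α, ∀ a : α, ∀ l₂ : List α, l₁ ++ a :: l₂ = path s n →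
          l₁ = path s l₁.length ∧ a = s l₁ := by
        intro n
        induction n with
        | zero =>
          intro l₁ a l₂ h
          have : l₁ ++ a :: l₂ = [] := h
          simp at this
        | succ n ih =>
          intro l₁ a l₂ h
          have h4 : path s (n + 1) = path s n ++ [s (path s n)] := rfl
          rw [h4] at h
          rcases List.eq_nil_or_concat l₂ with rfl | ⟨l₃, b, rfl⟩
          · have h5 := List.append_inj' h (by simp)
            have h6 : (path s n).length = n := by rw [← pre_path, pre_length]
            obtain ⟨h7, h8⟩ := h5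
            refine ⟨by rw [h7, h6], ?_⟩
            rw [h7]
            simpa using h8
          · have h5 : (l₁ ++ a :: l₃) ++ [b] = path s n ++ [s (path s n)] := by
              rw [← h]; simp
            have h6 := (List.append_inj' h5 (by simp)).1
            exact ih l₁ a l₃ h6
      obtain ⟨h4, rfl⟩ := h3 _ l₁ a l₂ (hl.trans h)
      exact hs l₁ (by rw [h4]; exact hQ _)

end Pool.Agent.Work.MP_69fea5_lc.PT
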