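import Pool.Agent.Work.MP_69fea5_lc.PT.Func

/-!
Persistent colours: the construction of ArithmeticCones started from an arbitrary condition, and
an arithmetical set of finite sums on which only persistent colours occur.
-/

set_option autoImplicit false

namespace Pool.Agent.Work.MP_69fea5_lc.PT

open Encodable
open Pool.Agent.Work.MP_69fea5_lc.AC

variable [Orc]

/-- the stem `σ` decides that `m` is enumerated by `Θ` -/
def Acc (Θ : List Bool × ℕ → Prop) (σ : List ℕ) (m : ℕ) : Prop :=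
  ∃ β : List Bool, Θ (β, m) ∧ (∃ a ∈ σ, β.length ≤ a) ∧
    ∀ i : ℕ, i < β.length → (β[i]? = some true ↔ i ∈ σ)

theorem AR_Acc {Θ : List Bool × ℕ → Prop} (hΘ : AR Θ) :
    AR fun q : List ℕ × ℕ => Acc Θ q.1 q.2 := by
  refine AR.ex (AR.and ?_ (AR.and ?_ (AR.all (AR.imp ?_ (AR.iff ?_ ?_)))))
  · exact hΘ.sub (f := fun q : (List ℕ × ℕ) × List Bool => (q.2, q.1.2))
      (Primrec.pair .snd (Primrec.snd.comp .fst))
  · exact AR.exIn (g := fun q : (List ℕ × ℕ) × List Bool => q.1.1) (Primrec.fst.comp .fst)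
      (AR.le (Primrec.list_length.comp (Primrec.snd.comp .fst)) .snd)
  · exact AR.lt .snd (Primrec.list_length.comp (Primrec.snd.comp .fst))
  · exact AR.eq (Primrec.list_getElem?.comp (Primrec.snd.comp .fst) .snd) (.const (some true))
  · exact AR.mem .snd (Primrec.fst.comp (Primrec.fst.comp .fst))

theorem bits_eq {P : Set ℕ} {β : List Bool}
    (h : ∀ i : ℕ, i < β.length → (β[i]? = some true ↔ i ∈ P)) : β = bits P β.length := by
  refine List.ext_getElem? fun i => ?_
  by_cases hi : i < β.length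
  · have h1 := h i hi
    rw [List.getElem?_eq_getElem hi] at h1 ⊢
    refine Eq.symm ?_
    rw [bits_get]
    refine ⟨hi, ?_⟩
    rw [← h1]
    simp
  · rw [List.getElem?_eq_none (by omega), List.getElem?_eq_none (by rw [bits_length]; omega)]


variable {κ : Type*} [Finite κ]

/-- the finite sums of a set of numbers -/
def FSet (X : Set ℕ) : Set ℕ :=
  {n | ∃ F : Finset ℕ, F.Nonempty ∧ (↑F : Set ℕ) ⊆ X ∧ ∑ x ∈ F, x = n}

/-- the construction from a given condition -/
theorem main_from (c : ℕ → κ) (hc : ∀ i, AR fun x => c x = i) (C : ℕ → ℕ → Prop)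
    (hC : ∀ j, ¬ AR (C j)) (p₀ : Cond c) (hp₀ : p₀.σ = []) :
    ∃ X : Set ℕ, X.Infinite ∧ (∀ x ∈ X, 0 < x) ∧
      (∀ n ∈ FSet X, p₀.A n ∧ c n = p₀.i) ∧
      ∀ j, ∀ f : ℕ →. ℕ, Rep X f → ¬ ∀ m, C j m ↔ (f m).Dom := by
  -- enumeration of requirements
  obtain ⟨e, he⟩ := (AR_countable (List Bool × ℕ)).exists_eq_range
    ⟨fun _ => True, AR.const True⟩
  have heA : ∀ n, AR (e n) := fun n => by
    have : e n ∈ {p : List Bool × ℕ → Prop | AR p} := by
      rw [he]
      exact ⟨n, rfl⟩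
    exact this
  have heS : ∀ Θ : List Bool × ℕ → Prop, AR Θ → ∃ n, e n = Θ := fun Θ hΘ => by
    have : Θ ∈ {p : List Bool × ℕ → Prop | AR p} := hΘ
    rw [he] at this
    exact this
  -- one step
  have step : ∀ (n : ℕ) (p : Cond c), ∃ p' : Cond c, p'.Le p ∧ p.σ.length < p'.σ.length ∧
      ∃ m, (Acc (e n.unpair.1) p'.σ m ∧ ¬ C n.unpair.2 m) ∨
        (C n.unpair.2 m ∧ ∀ p'' : Cond c, p''.Le p' → ¬ Acc (e n.unpair.1) p''.σ m) := by
    intro n p
    obtain ⟨p₁, h1, h2⟩ := length_step p hc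
    obtain ⟨p₂, h3, m, h4⟩ := req_step p₁ hc (AR_Acc (heA n.unpair.1)) (hC n.unpair.2)
    refine ⟨p₂, h3.trans h1, ?_, m, h4⟩
    obtain ⟨E, h5, -⟩ := h3
    rw [h5, List.length_append]
    omega
  choose nx hnx1 hnx2 hnx3 using step
  obtain ⟨p, hp0, hps⟩ : ∃ p : ℕ → Cond c, p 0 = p₀ ∧ ∀ n, p (n + 1) = nx n (p n) :=
    ⟨fun n => Nat.rec p₀ (fun n q => nx n q) n, rfl, fun n => rfl⟩
  have hle : ∀ m n, m ≤ n → (p n).Le (p m) := by
    intro m n h
    induction h with
    | refl => exact Cond.Le.refl _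
    | step _ ih =>
      refine Cond.Le.trans ?_ ih
      rw [hps]
      exact hnx1 _ _
  have hlen : ∀ n, n ≤ (p n).σ.length := by
    intro n
    induction n with
    | zero => exact Nat.zero_le _
    | succ n ih =>
      have := hnx2 n (p n)
      rw [← hps] at this
      omega
  have hpre : ∀ m n, m ≤ n → (p m).σ <+: (p n).σ := by
    intro m n h
    obtain ⟨E, hE, -⟩ := hle m n h
    exact ⟨E, hE.symm⟩
  have hmem : ∀ m n a, m ≤ n → a ∈ (p m).σ → a ∈ (p n).σ := fun m n a h ha =>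
    (hpre m n h).subset ha
  have hnd : ∀ n, (p n).σ.Nodup := fun n =>
    (p n).srt.1.imp fun h => Nat.ne_of_lt h
  let X : Set ℕ := {a | ∃ n, a ∈ (p n).σ}
  have hXinf : X.Infinite := by
    intro hfin
    have h1 : ∀ n, (p n).σ.toFinset ⊆ hfin.toFinset := by
      intro n a ha
      rw [Set.Finite.mem_toFinset]
      exact ⟨n, List.mem_toFinset.1 ha⟩
    have h2 := Finset.card_le_card (h1 (hfin.toFinset.card + 1))
    rw [List.toFinset_card_of_nodup (hnd _)] at h2
    have h3 := hlen (hfin.toFinset.card + 1)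
    omega
  -- initial segments of `X` are decided by the stems
  have hinit : ∀ n a i, a ∈ (p n).σ → i < a → (i ∈ X ↔ i ∈ (p n).σ) := by
    intro n a i ha hi
    constructor
    · rintro ⟨n', h1⟩
      rcases le_total n' n with h2 | h2
      · exact hmem n' n i h2 h1
      · obtain ⟨E, hE, -⟩ := hle n n' h2
        rw [hE] at h1
        rcases List.mem_append.1 h1 with h3 | h3
        · exact h3
        · exfalso
          have h4 := (p n').srt.1
          rw [hE, List.pairwise_append] at h4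
          have := h4.2.2 a ha i h3
          omega
    · exact fun h => ⟨n, h⟩
  have hfin : ∀ F : Finset ℕ, (↑F : Set ℕ) ⊆ X → ∃ n, ∀ x ∈ F, x ∈ (p n).σ := by
    intro F
    induction F using Finset.induction_on with
    | empty => exact fun _ => ⟨0, by simp⟩
    | insert a F _ ih =>
      intro h
      rw [Finset.coe_insert, Set.insert_subset_iff] at h
      obtain ⟨n, hn⟩ := ih h.2
      obtain ⟨m, hm⟩ := h.1
      refine ⟨max m n, fun x hx => ?_⟩
      rcases Finset.mem_insert.1 hx with rfl | hx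
      · exact hmem m _ _ (le_max_left _ _) hm
      · exact hmem n _ _ (le_max_right _ _) (hn x hx)
  refine ⟨X, hXinf, ?_, ?_, ?_⟩
  · rintro x ⟨n, hn⟩
    exact (p n).srt.2 x hn
  · rintro _ ⟨F, hF, hFX, rfl⟩
    obtain ⟨n, hn⟩ := hfin F hFX
    have h0 : ∑ x ∈ F, x ∈ FSl (p n).σ := by
      refine mem_FSl.2 ⟨(p n).σ.filter (fun x => decide (x ∈ F)),
        List.filter_sublist, ?_, ?_⟩
      · obtain ⟨a, ha⟩ := hF
        refine List.ne_nil_of_mem (a := a) ?_
        rw [List.mem_filter]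
        exact ⟨hn a ha, by simpa using ha⟩
      · have h2 : ((p n).σ.filter (fun x => decide (x ∈ F))).toFinset = F := by
          ext x
          simp only [List.mem_toFinset, List.mem_filter, decide_eq_true_eq]
          exact ⟨fun h => h.2, fun h => ⟨hn x h, h⟩⟩
        have h3 := List.sum_toFinset (fun x => x) ((hnd n).filter (fun x => decide (x ∈ F)))
        rw [h2] at h3
        rw [h3, List.map_id']
    obtain ⟨E, h1, h2, -, -, -, h3⟩ := hle 0 n (Nat.zero_le _)
    rw [hp0, hp₀, List.nil_append] at h1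
    rw [hp0] at h2 h3
    refine ⟨h2 _ (by rw [← h1]; exact h0), ?_⟩
    rw [← h3]
    exact (p n).hσ _ h0
  · rintro j f ⟨Θ, hΘ, hmono, hf⟩ hdom
    have hΘ' : AR fun q : List Bool × ℕ => ∃ v : ℕ, Θ (q.1, q.2, v) :=
      AR.ex (hΘ.sub (f := fun q : (List Bool × ℕ) × ℕ => (q.1.1, q.1.2, q.2))
        (Primrec.pair (Primrec.fst.comp .fst) (Primrec.pair (Primrec.snd.comp .fst) .snd)))
    obtain ⟨n, hn⟩ := heS _ hΘ'
    have hdom' : ∀ m, (f m).Dom ↔ ∃ ℓ, ∃ v, Θ (bits X ℓ, m, v) := by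
      intro m
      rw [Part.dom_iff_mem]
      constructor
      · rintro ⟨v, hv⟩
        obtain ⟨ℓ, hℓ⟩ := (hf m v).1 hv
        exact ⟨ℓ, v, hℓ⟩
      · rintro ⟨ℓ, v, hℓ⟩
        exact ⟨v, (hf m v).2 ⟨ℓ, hℓ⟩⟩
    obtain ⟨m, hm⟩ := hnx3 (Nat.pair n j) (p (Nat.pair n j))
    rw [← hps, Nat.unpair_pair, hn] at hm
    rcases hm with ⟨⟨β, h1, ⟨a, ha, hβ⟩, h2⟩, h3⟩ | ⟨h1, h2⟩
    · refine h3 ((hdom m).2 ((hdom' m).2 ⟨β.length, ?_⟩))
      have h4 : β = bits X β.length := bits_eq fun i hi => by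
        rw [h2 i hi]
        exact (hinit _ a i ha (by omega)).symm
      rw [← h4]
      exact h1
    · obtain ⟨ℓ, v, hv⟩ := (hdom' m).1 ((hdom m).1 h1)
      obtain ⟨a, ⟨n', ha⟩, hℓ⟩ := hXinf.exists_gt ℓ
      have h3 := hmem n' (max n' (Nat.pair n j + 1)) a (le_max_left _ _) ha
      refine h2 (p (max n' (Nat.pair n j + 1))) (hle _ _ (le_max_right _ _))
        ⟨bits X ℓ, ⟨v, hv⟩, ⟨a, h3, ?_⟩, fun i hi => ?_⟩
      · rw [bits_length]
        exact hℓ.le
      · rw [bits_length] at hi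
        rw [bits_get, ← hinit _ a i h3 (by omega)]
        simp [hi]

theorem sum_mem_FSet {X : Set ℕ} {D : List ℕ} (hnd : D.Nodup) (hD : ∀ x ∈ D, x ∈ X) {r : ℕ}
    (hr : r ∈ FSl D) : r ∈ FSet X := by
  classical
  obtain ⟨s, hs, h0, rfl⟩ := mem_FSl.1 hr
  have hsn : s.Nodup := hs.nodup hnd
  refine ⟨s.toFinset, ?_, ?_, ?_⟩
  · obtain ⟨a, ha⟩ := List.exists_mem_of_ne_nil s h0
    exact ⟨a, List.mem_toFinset.2 ha⟩
  · intro a ha
    exact hD a (hs.subset (List.mem_toFinset.1 (Finset.mem_coe.1 ha)))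
  · have := List.sum_toFinset (fun x => x) hsn
    rw [this, List.map_id']

/-- an arithmetical set of generators inside a reservoir -/
theorem exists_gen {A : ℕ → Prop} (hA : AR A) (hV : V A) :
    ∃ Y : Set ℕ, AR (fun x => x ∈ Y) ∧ Y.Infinite ∧ (∀ x ∈ Y, 0 < x) ∧
      (∀ n ∈ FSet Y, A n) ∧ AR (fun n => n ∈ FSet Y) ∧ V fun n => n ∈ FSet Y := by
  classical
  have hR : AR fun p : List ℕ × ℕ => (p.1.sum < p.2 ∧ In A (p.1 ++ [p.2])) := by
    refine AR.and (AR.lt ?_ .snd) ?_
    · exact (Primrec.list_foldr (f := fun p : List ℕ × ℕ => p.1) (g := fun _ => 0)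
        (h := fun _ q => q.1 + q.2) .fst (.const 0)
        (Primrec.nat_add.comp (Primrec.fst.comp .snd) (Primrec.snd.comp .snd)).to₂).of_eq
        fun p => by
          induction p.1 with
          | nil => rfl
          | cons a l ih => simp only [List.foldr_cons, List.sum_cons, ih]
    · exact AR_In (A := fun _ : List ℕ × ℕ => A) (hA.sub (f := fun q : (List ℕ × ℕ) × ℕ => q.2)
        .snd) (f := fun p : List ℕ × ℕ => p.1 ++ [p.2])
        (Primrec.list_append.comp .fst (Primrec.list_cons.comp .snd (.const [])))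
  obtain ⟨g, hg1, hg2, hg3⟩ := leastPath hR (Q := fun l => In A l) (In_nil A)
    (fun l hl => hV l hl l.sum) (fun l a _ h => h.2)
  have hmono : StrictMono g := by
    refine strictMono_nat_of_lt_succ fun n => ?_
    have h1 := (hg1 (n + 1)).1
    have h2 : g n ≤ (pre g (n + 1)).sum := List.le_sum_of_mem (by
      rw [pre_succ]; simp)
    omega
  have hpos : ∀ n, 0 < g n := fun n => lt_of_le_of_lt (Nat.zero_le _) (hg1 n).1
  have hmem : ∀ n x, x ∈ pre g n ↔ ∃ m, m < n ∧ g m = x := by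
    intro n x
    simp [pre, List.mem_map, List.mem_range]
  have hnd : ∀ n, (pre g n).Nodup := fun n =>
    List.Nodup.map hmono.injective List.nodup_range
  have hbd : ∀ F : Finset ℕ, (↑F : Set ℕ) ⊆ Set.range g → ∃ n, ∀ x ∈ F, x ∈ pre g n := by
    intro F
    induction F using Finset.induction_on with
    | empty => exact fun _ => ⟨0, by simp⟩
    | insert a F _ ih =>
      intro h
      rw [Finset.coe_insert, Set.insert_subset_iff] at h
      obtain ⟨n, hn⟩ := ih h.2
      obtain ⟨m, hm⟩ := h.1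
      refine ⟨max (m + 1) n, fun x hx => ?_⟩
      rcases Finset.mem_insert.1 hx with rfl | hx
      · exact (hmem _ _).2 ⟨m, by omega, hm⟩
      · obtain ⟨m', h1, h2⟩ := (hmem _ _).1 (hn x hx)
        exact (hmem _ _).2 ⟨m', by omega, h2⟩
  -- the finite sums are the sums of initial segments
  have hFS : ∀ x, x ∈ FSet (Set.range g) ↔ ∃ l : List ℕ, l = pre g l.length ∧ x ∈ FSl l := by
    intro x
    constructor
    · rintro ⟨F, hF, hFX, rfl⟩
      obtain ⟨n, hn⟩ := hbd F hFX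
      refine ⟨pre g n, by rw [pre_length], mem_FSl.2
        ⟨(pre g n).filter (fun x => decide (x ∈ F)), List.filter_sublist, ?_, ?_⟩⟩
      · obtain ⟨a, ha⟩ := hF
        refine List.ne_nil_of_mem (a := a) ?_
        rw [List.mem_filter]
        exact ⟨hn a ha, by simpa using ha⟩
      · have h2 : ((pre g n).filter (fun x => decide (x ∈ F))).toFinset = F := by
          ext x
          simp only [List.mem_toFinset, List.mem_filter, decide_eq_true_eq]
          exact ⟨fun h => h.2, fun h => ⟨hn x h, h⟩⟩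
        have h3 := List.sum_toFinset (fun x => x) ((hnd n).filter (fun x => decide (x ∈ F)))
        rw [h2] at h3
        rw [h3, List.map_id']
    · rintro ⟨l, hl, hx⟩
      rw [hl] at hx
      refine sum_mem_FSet (hnd _) (fun y hy => ?_) hx
      obtain ⟨m, -, rfl⟩ := (hmem _ _).1 hy
      exact ⟨m, rfl⟩
  have hin : ∀ n ∈ FSet (Set.range g), A n := by
    intro n hn
    obtain ⟨l, hl, hx⟩ := (hFS n).1 hn
    rw [hl] at hx
    exact hg2 _ n hx
  refine ⟨Set.range g, ?_, Set.infinite_range_of_injective hmono.injective, ?_, hin, ?_, ?_⟩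
  · have h : AR fun x : ℕ => ∃ l : List ℕ, l = pre g l.length ∧ x ∈ l :=
      AR.ex (AR.and (hg3.sub (f := fun q : ℕ × List ℕ => q.2) .snd) (AR.mem .fst .snd))
    refine h.congr fun x => ?_
    constructor
    · rintro ⟨l, hl, hx⟩
      rw [hl] at hx
      obtain ⟨m, -, rfl⟩ := (hmem _ _).1 hx
      exact ⟨m, rfl⟩
    · rintro ⟨m, rfl⟩
      exact ⟨pre g (m + 1), by rw [pre_length], (hmem _ _).2 ⟨m, by omega, rfl⟩⟩
  · rintro _ ⟨m, rfl⟩
    exact hpos m
  · have h : AR fun x : ℕ => ∃ l : List ℕ, l = pre g l.length ∧ x ∈ FSl l :=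
      AR.ex (AR.and (hg3.sub (f := fun q : ℕ × List ℕ => q.2) .snd)
        (AR.mem .fst (FSl_prim.comp .snd)))
    exact h.congr fun x => (hFS x).symm
  · intro D hD N
    obtain ⟨n, hn⟩ : ∃ n, N + D.sum < g n := by
      obtain ⟨n, hn⟩ := hmono.tendsto_atTop.eventually_gt_atTop (N + D.sum) |>.exists
      exact ⟨n, hn⟩
    refine ⟨g n, by omega, fun r hr => ?_⟩
    have hadd : ∀ a : ℕ, a ≤ D.sum → a ∈ FSet (Set.range g) → a + g n ∈ FSet (Set.range g) := by
      rintro a ha ⟨F, hF, hFX, rfl⟩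
      have hnot : g n ∉ F := by
        intro h
        have := Finset.single_le_sum (f := fun x : ℕ => x) (fun _ _ => Nat.zero_le _) h
        omega
      refine ⟨insert (g n) F, Finset.insert_nonempty _ _, ?_, ?_⟩
      · rw [Finset.coe_insert, Set.insert_subset_iff]
        exact ⟨⟨n, rfl⟩, hFX⟩
      · rw [Finset.sum_insert hnot, add_comm]
    rcases mem_FSl_append.1 hr with h | ⟨a, ha, b, hb, rfl⟩
    · exact hD r h
    · rw [mem_FSl_singleton.1 hb]
      rcases mem_FS0_iff.1 ha with rfl | ha'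
      · rw [zero_add]
        refine ⟨{g n}, by simp, by simp, by simp⟩
      · refine hadd a ?_ (hD a ha')
        obtain ⟨s, hs, -, rfl⟩ := mem_FSl.1 ha'
        exact hs.sum_le_sum fun _ _ => Nat.zero_le _

/-- **Theorem T.** Only persistent colours occur on a suitable arithmetical set of sums. -/
theorem persistent (c : ℕ → κ) (hc : ∀ i, AR fun x => c x = i) :
    ∃ Y : Set ℕ, AR (fun x => x ∈ Y) ∧ Y.Infinite ∧ (∀ x ∈ Y, 0 < x) ∧
      ∀ n ∈ FSet Y, ∀ C : ℕ → ℕ → Prop, (∀ j, ¬ AR (C j)) →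
        ∃ X : Set ℕ, X.Infinite ∧ (∀ x ∈ X, 0 < x) ∧
          (∀ m ∈ FSet X, m ∈ FSet Y ∧ c m = c n) ∧
          ∀ j, ∀ f : ℕ →. ℕ, Rep X f → ¬ ∀ m, C j m ↔ (f m).Dom := by
  have hA : AR fun x : ℕ => 0 < x := AR.lt (.const 0) .id
  have hV : V fun x : ℕ => 0 < x := by
    intro D hD N
    refine ⟨N + 1, by omega, fun r hr => ?_⟩
    rcases mem_FSl_append.1 hr with h | ⟨a, ha, b, hb, rfl⟩
    · exact hD r h
    · rw [mem_FSl_singleton.1 hb]
      omega
  obtain ⟨A', h1, h2, h3, h4⟩ := refine_types hA hV c [0]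
  obtain ⟨Y, hY1, hY2, hY3, hY4, hY5, hY6⟩ := exists_gen h1 h2
  refine ⟨Y, hY1, hY2, hY3, fun n hn C hC => ?_⟩
  have hp := h4 n (hY4 n hn)
  obtain ⟨X, hX1, hX2, hX3, hX4⟩ := main_from c hc C hC
    ⟨[], [0], fun u => c (u + n), fun x => x ∈ FSet Y, c n, hY5, hY6,
      fun A'' a1 a2 a3 => hp A'' a1 a2 fun x hx => hY4 x (a3 x hx),
      fun r hr => by simp [FSl] at hr,
      fun x hx r hr => by
        have h0 : r = 0 := by simpa [FS0, FSl] using hr
        have := hx 0 (by simp)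
        rw [h0]
        simpa using this,
      ⟨.nil, by simp⟩⟩ rfl
  exact ⟨X, hX1, hX2, hX3, hX4⟩

end Pool.Agent.Work.MP_69fea5_lc.PT
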