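import Pool.Agent.Work.MP_69fea5_lc.PT.Defs
import Pool.Agent.Work.MP_69fea5_lc.PT.Main

set_option autoImplicit false

namespace Pool.Agent.Work.MP_69fea5_lc.PT.Final

open Pool.Agent.Work.MP_69fea5_lc.PT (Orc Arith AR AR_nat Rep rep_of_rec FSet persistent)

open Pool.Agent.Work.MP_69fea5_lc.PT.Defs

theorem mem_charFun {S : Set ℕ} {n v : ℕ} :
    v ∈ charFun S n ↔ (n ∈ S ∧ v = 1) ∨ (n ∉ S ∧ v = 0) := by
  unfold charFun
  rw [Part.mem_some_iff]
  by_cases h : n ∈ S <;> simp [h]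

theorem bits_empty (ℓ : ℕ) : Pool.Agent.Work.MP_69fea5_lc.PT.bits (∅ : Set ℕ) ℓ =
    (List.range ℓ).map fun _ => false := by
  simp [Pool.Agent.Work.MP_69fea5_lc.PT.bits]

section

variable {Z : Set ℕ}

theorem arith_iff {S : Set ℕ} :
    ArithIn Z S ↔ @Arith ⟨Z⟩ fun n => n ∈ S := by
  let _ : Orc := ⟨Z⟩
  constructor
  · intro h
    induction h with
    | @base S h =>
      have h1 : Rep (∅ : Set ℕ) (charFun S) := by
        refine rep_of_rec (O := {charFun Z}) ?_ (RecursiveIn.iff_nat.1 h)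
        intro g hg
        rw [Set.mem_singleton_iff.1 hg]
        exact Rep.arith (A := fun n => n ∈ Z)
          (AR_nat.2 (Arith.orac (f := fun n => n) Computable.id)) fun n v => mem_charFun
      obtain ⟨Θ, hΘ, -, hf⟩ := h1
      have h2 : AR fun n : ℕ => ∃ ℓ : ℕ,
          Θ ((List.range ℓ).map fun _ => false, n, 1) := by
        refine AR.ex (hΘ.sub (f := fun q : ℕ × ℕ =>
          (((List.range q.2).map fun _ => false), q.1, 1)) ?_)
        refine Primrec.pair (Primrec.list_map (Primrec.list_range.comp .snd)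
          (Primrec.const false).to₂) (Primrec.pair .fst (.const 1))
      refine (AR_nat.1 h2).congr fun n => ?_
      have h3 := hf n 1
      simp only [bits_empty] at h3
      rw [← h3, mem_charFun]
      simp
    | compl _ ih => exact .compl ih
    | inter _ _ ih1 ih2 => exact .inter ih1 ih2
    | proj _ ih => exact .proj ih
  · intro h
    have key : ∀ p : ℕ → Prop, Arith p → ArithIn Z {n | p n} := by
      intro p hp
      induction hp with
      | @comp p h =>
        refine .base ?_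
        obtain ⟨f, hf, rfl⟩ := ComputablePred.computable_iff.1 h
        have h1 : Computable fun n : ℕ => (f n).toNat :=
          (Primrec.dom_finite Bool.toNat).to_comp.comp hf
        refine RecursiveIn.of_eq h1.computableIn fun n => ?_
        unfold charFun
        cases hfn : f n <;> simp [hfn]
      | @orac f hf =>
        refine .base ?_
        have h1 : Nat.RecursiveIn {charFun Z} fun n => Part.some (f n) :=
          RecursiveIn.iff_nat.1 hf.computableIn
        have h2 : Nat.RecursiveIn {charFun Z} (charFun Z) := .oracle _ rfl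
        refine RecursiveIn.of_eq (RecursiveIn.iff_nat.2 (Nat.RecursiveIn.comp h2 h1)) fun n => ?_
        show (Part.some (f n)).bind (charFun Z) = _
        rw [Part.bind_some]
        rfl
      | compl _ ih => exact .compl ih
      | inter _ _ ih1 ih2 => exact .inter ih1 ih2
      | proj _ ih => exact .proj ih
    exact key _ h

theorem avoids_of {X C : Set ℕ}
    (h4 : ∀ f : ℕ →. ℕ, @Rep ⟨Z⟩ X f → ¬ ∀ m, m ∈ C ↔ (f m).Dom) : Avoids Z X C := by
  let _ : Orc := ⟨Z⟩
  have hrep : ∀ f : ℕ →. ℕ, RecursiveIn (oracles Z X) f → Rep X f := by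
    intro f hf
    refine rep_of_rec ?_ (RecursiveIn.iff_nat.1 hf)
    rintro g (hg | ⟨A, hA, rfl⟩)
    · rw [Set.mem_singleton_iff.1 hg]
      exact Rep.self fun n v => mem_charFun
    · exact Rep.arith (AR_nat.2 (arith_iff.1 hA)) fun n v => mem_charFun
  have h5 : ∀ f : ℕ →. ℕ, RecursiveIn (oracles Z X) f →
      ¬ ∀ m, m ∈ C ↔ (f m).Dom := fun f hf => h4 f (hrep f hf)
  refine ⟨h5, fun hj => ?_⟩
  -- halt exactly on `C`
  have hj' := RecursiveIn.iff_nat.1 hj
  have hsub : Nat.RecursiveIn (oracles Z X) fun n => Part.some (1 - n) :=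
    Nat.Primrec.recursiveIn (Primrec.nat_iff.1 (Primrec.nat_sub.comp (.const 1) .id))
  have hleft : Nat.RecursiveIn (oracles Z X) fun n => Part.some n.unpair.1 := .left
  have hcomp := Nat.RecursiveIn.rfind
    (Nat.RecursiveIn.comp hsub (Nat.RecursiveIn.comp hj' hleft))
  refine h5 _ (RecursiveIn.iff_nat.2 hcomp) fun m => ?_
  rw [Part.dom_iff_mem]
  constructor
  · intro hm
    refine ⟨0, Nat.mem_rfind.2 ⟨?_, fun {k} hk => absurd hk (by omega)⟩⟩
    simp [charFun, hm]
  · rintro ⟨n, hn⟩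
    have h6 := (Nat.mem_rfind.1 hn).1
    by_contra hm
    simp [charFun, hm] at h6

theorem FS_nonempty {Y : Set ℕ} (h : Y.Infinite) : ∃ n, n ∈ FS Y := by
  obtain ⟨y, hy⟩ := h.nonempty
  exact ⟨y, {y}, by simp, by simpa using hy, by simp⟩

/-- the main theorem -/
theorem main_theorem (Z : Set ℕ) {k : ℕ} (c : ℕ → Fin k) (hc : ∀ i, ArithIn Z {n | c n = i}) :
    ∃ Y : Set ℕ, ArithIn Z Y ∧ Y.Infinite ∧ (∀ y ∈ Y, 0 < y) ∧
      ∀ n ∈ FS Y, ∀ C : ℕ → Set ℕ, (∀ j, ¬ ArithIn Z (C j)) →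
        ∃ X : Set ℕ, IsSolution c (c n) X ∧ FS X ⊆ FS Y ∧ ∀ j, Avoids Z X (C j) := by
  let _ : Orc := ⟨Z⟩
  obtain ⟨Y, h1, h2, h3, h4⟩ := persistent c (fun i => AR_nat.2 (arith_iff.1 (hc i)))
  refine ⟨Y, arith_iff.2 (AR_nat.1 h1), h2, h3, fun n hn C hC => ?_⟩
  obtain ⟨X, h5, h6, h7, h8⟩ := h4 n hn (fun j m => m ∈ C j)
    fun j h => hC j (arith_iff.2 (AR_nat.1 h))
  exact ⟨X, ⟨h5, h6, fun m hm => (h7 m hm).2⟩, fun m hm => (h7 m hm).1,
    fun j => avoids_of (h8 j)⟩

theorem exists_nonarith (Z : Set ℕ) : ∃ C : Set ℕ, ¬ ArithIn Z C := by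
  let _ : Orc := ⟨Z⟩
  by_contra h
  push Not at h
  have h1 : (Set.univ : Set (ℕ → Prop)).Countable := by
    refine Pool.Agent.Work.MP_69fea5_lc.PT.Arith_countable.mono fun p _ => ?_
    exact arith_iff.1 (h {n | p n})
  have h2 : Countable (ℕ → Prop) := Set.countable_univ_iff.1 h1
  have h3 : Countable (Set ℕ) := h2
  obtain ⟨f, hf⟩ := exists_injective_nat (Set ℕ)
  exact Function.cantor_injective f hf

end

/-- **Persistent colours in Hindman's theorem.** (1) Let `c` be a colouring of the positive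
integers with finitely many colours, arithmetical in `Z` (for example computable, `Z = ∅`). There
is an infinite set `Y`, arithmetical in `Z`, such that every colour `c n` which occurs on `FS(Y)`
is the colour of a solution `X` of `c` with `FS(X) ⊆ FS(Y)`; moreover, for any sequence
`C 0, C 1, …` of sets which are not arithmetical in `Z`, `X` can be chosen such that no `C j` is
recursively enumerable in, or computable from, `X` together with a set arithmetical in `Z`.
(2) If all solutions of `c` have the same colour, then `c` has a solution which is arithmetical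
in `Z`. (3) Every IP*-set `A` contains `FS(Y)` for an infinite set `Y` arithmetical in `A`. -/
theorem final :
    (∀ (Z : Set ℕ) (k : ℕ) (c : ℕ → Fin k), (∀ i, ArithIn Z {n | c n = i}) →
      ∃ Y : Set ℕ, ArithIn Z Y ∧ Y.Infinite ∧ (∀ y ∈ Y, 0 < y) ∧
        ∀ n ∈ FS Y, ∀ C : ℕ → Set ℕ, (∀ j, ¬ ArithIn Z (C j)) →
          ∃ X : Set ℕ, IsSolution c (c n) X ∧ FS X ⊆ FS Y ∧ ∀ j, Avoids Z X (C j)) ∧
    (∀ (Z : Set ℕ) (k : ℕ) (c : ℕ → Fin k), (∀ i, ArithIn Z {n | c n = i}) →
      (∀ (i i' : Fin k) (X X' : Set ℕ), IsSolution c i X → IsSolution c i' X' → i = i') →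
        ∃ (Y : Set ℕ) (i : Fin k), ArithIn Z Y ∧ IsSolution c i Y) ∧
    ∀ A : Set ℕ, IPStar A →
      ∃ Y : Set ℕ, ArithIn A Y ∧ Y.Infinite ∧ (∀ y ∈ Y, 0 < y) ∧ FS Y ⊆ A := by
  classical
  have h2 : ∀ (Z : Set ℕ) (k : ℕ) (c : ℕ → Fin k), (∀ i, ArithIn Z {n | c n = i}) →
      (∀ (i i' : Fin k) (X X' : Set ℕ), IsSolution c i X → IsSolution c i' X' → i = i') →
        ∃ (Y : Set ℕ) (i : Fin k), ArithIn Z Y ∧ IsSolution c i Y := by
    intro Z k c hc hone
    obtain ⟨C₀, hC₀⟩ := exists_nonarith Z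
    obtain ⟨Y, h1, h2, h3, h4⟩ := main_theorem Z c hc
    obtain ⟨n₀, hn₀⟩ := FS_nonempty h2
    obtain ⟨X₀, hX₀, -, -⟩ := h4 n₀ hn₀ (fun _ => C₀) fun _ => hC₀
    refine ⟨Y, c n₀, h1, h2, h3, fun n hn => ?_⟩
    obtain ⟨X, hX, -, -⟩ := h4 n hn (fun _ => C₀) fun _ => hC₀
    exact hone _ _ _ _ hX hX₀
  refine ⟨fun Z k c hc => main_theorem Z c hc, h2, fun A hIP => ?_⟩
  let c : ℕ → Fin 2 := fun n => if n ∈ A then 1 else 0
  have hc1 : ∀ n, c n = 1 ↔ n ∈ A := fun n => by
    by_cases h : n ∈ A <;> simp [c, h]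
  have hcA : ∀ i : Fin 2, ArithIn A {n | c n = i} := by
    have h1 : ArithIn A {n | c n = 1} := by
      have : {n | c n = 1} = A := Set.ext fun n => hc1 n
      rw [this]
      exact .base (.oracle _ rfl)
    intro i
    rcases Fin.exists_fin_two.1 ⟨i, rfl⟩ with h | h
    · have h0 : {n | c n = i} = {n | c n = 1}ᶜ := by
        ext n
        rw [h]
        by_cases h : n ∈ A <;> simp [c, h]
      rw [h0]
      exact .compl h1
    · rw [h]
      exact h1
  have hsol : ∀ (i : Fin 2) (X : Set ℕ), IsSolution c i X → i = 1 := by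
    rintro i X ⟨hX1, hX2, hX3⟩
    obtain ⟨n, hn, hnA⟩ := hIP X hX1 hX2
    rw [← hX3 n hn]
    exact (hc1 n).2 hnA
  obtain ⟨Y, i, hY1, hY2⟩ := h2 A 2 c hcA fun i i' X X' h h' => by
    rw [hsol i X h, hsol i' X' h']
  refine ⟨Y, hY1, hY2.1, hY2.2.1, fun n hn => ?_⟩
  rw [← hc1, hY2.2.2 n hn]
  exact hsol i Y hY2

end Pool.Agent.Work.MP_69fea5_lc.PT.Final
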