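import Pool.Agent.Work.MP_69fea5_lc.PT.Dich

/-!
The forcing conditions and the density lemmas.
-/

set_option autoImplicit false

namespace Pool.Agent.Work.MP_69fea5_lc.PT

open Encodable
open Pool.Agent.Work.MP_69fea5_lc.AC

variable [Orc]

variable {κ : Type*}

/-- increasing lists of positive numbers -/
def Srt (σ : List ℕ) : Prop := σ.Pairwise (fun a b => a < b) ∧ ∀ a ∈ σ, 0 < a

/-- forcing conditions -/
structure Cond (c : ℕ → κ) where
  /-- the stem -/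
  σ : List ℕ
  /-- the shifts over which types are computed -/
  S : List ℕ
  /-- the type -/
  δ : ℕ → κ
  /-- the reservoir -/
  A : ℕ → Prop
  /-- the colour -/
  i : κ
  hA : AR A
  hV : V A
  pers : ∀ A' : ℕ → Prop, AR A' → V A' → (∀ x, A' x → A x) → ∃ x, A' x ∧ G c S δ x
  hσ : ∀ r ∈ FSl σ, c r = i
  comp : ∀ x, G c S δ x → ∀ r ∈ FS0 σ, c (r + x) = i
  srt : Srt σ

/-- the order of forcing conditions -/
def Cond.Le {c : ℕ → κ} (p' p : Cond c) : Prop :=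
  ∃ E : List ℕ, p'.σ = p.σ ++ E ∧ In p.A E ∧ (∀ r ∈ FSl E, G c p.S p.δ r) ∧
    (∀ x, p'.A x → ∀ r ∈ FS0 E, p.A (r + x)) ∧
    (∀ x, G c p'.S p'.δ x → ∀ r ∈ FS0 E, G c p.S p.δ (r + x)) ∧ p'.i = p.i

theorem Cond.Le.refl {c : ℕ → κ} (p : Cond c) : p.Le p := by
  have h0 : ∀ r, r ∈ FS0 [] → r = 0 := fun r hr => by simpa [FS0, FSl] using hr
  refine ⟨[], by simp, In_nil _, fun r hr => by simp [FSl] at hr, fun x hx r hr => ?_,
    fun x hx r hr => ?_, rfl⟩
  · rw [h0 r hr, zero_add]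
    exact hx
  · rw [h0 r hr, zero_add]
    exact hx

theorem Cond.Le.trans {c : ℕ → κ} {p'' p' p : Cond c} (h' : p''.Le p') (h : p'.Le p) :
    p''.Le p := by
  obtain ⟨E, hσ, h1, h2, h3, h4, h5⟩ := h
  obtain ⟨E', hσ', h1', h2', h3', h4', h5'⟩ := h'
  refine ⟨E ++ E', by rw [hσ', hσ, List.append_assoc], ?_, ?_, ?_, ?_, h5'.trans h5⟩
  · exact In_append.2 ⟨h1, fun r hr s hs => h3 r (h1' r hr) s hs⟩
  · intro r hr
    rcases mem_FSl_append.1 hr with h | ⟨a, ha, b, hb, rfl⟩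
    · exact h2 r h
    · exact h4 b (h2' b hb) a ha
  · intro x hx r hr
    obtain ⟨a, ha, b, hb, rfl⟩ := mem_FS0_append.1 hr
    rw [add_assoc]
    exact h3 _ (h3' x hx b hb) a ha
  · intro x hx r hr
    obtain ⟨a, ha, b, hb, rfl⟩ := mem_FS0_append.1 hr
    rw [add_assoc]
    exact h4 _ (h4' x hx b hb) a ha

section

variable [Finite κ] {c : ℕ → κ}

/-- types can be made persistent -/
theorem refine_types {A : ℕ → Prop} (hA : AR A) (hV : V A) (c : ℕ → κ) (S : List ℕ) :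
    ∃ A' : ℕ → Prop, AR A' ∧ V A' ∧ (∀ x, A' x → A x) ∧
      ∀ x₀, A' x₀ → ∀ A'' : ℕ → Prop, AR A'' → V A'' → (∀ x, A'' x → A' x) →
        ∃ x, A'' x ∧ G c S (fun u => c (u + x₀)) x := by
  classical
  let T : (ℕ → Prop) → Set ({u // u ∈ S} → κ) := fun A =>
    {τ | ∃ x, A x ∧ τ = fun u => c (u.1 + x)}
  have hex : ∃ n, ∃ A', (AR A' ∧ V A' ∧ ∀ x, A' x → A x) ∧ (T A').ncard = n :=
    ⟨_, A, ⟨hA, hV, fun _ h => h⟩, rfl⟩
  obtain ⟨A', ⟨h1, h2, h3⟩, h4⟩ := Nat.find_spec hex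
  refine ⟨A', h1, h2, h3, fun x₀ hx₀ A'' h5 h6 h7 => ?_⟩
  have h8 : (T A').ncard ≤ (T A'').ncard := by
    rw [h4]
    exact Nat.find_min' hex ⟨A'', ⟨h5, h6, fun x hx => h3 x (h7 x hx)⟩, rfl⟩
  have h9 : T A'' ⊆ T A' := by
    rintro τ ⟨x, hx, h⟩
    exact ⟨x, h7 x hx, h⟩
  have h10 : T A'' = T A' := Set.eq_of_subset_of_ncard_le h9 h8 (Set.toFinite _)
  have h11 : (fun u : {u // u ∈ S} => c (u.1 + x₀)) ∈ T A'' := by
    rw [h10]
    exact ⟨x₀, hx₀, rfl⟩
  obtain ⟨x, hx, h⟩ := h11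
  refine ⟨x, hx, fun u hu => ?_⟩
  exact (congrFun h ⟨u, hu⟩).symm

/-- there is a condition -/
theorem exists_cond (c : ℕ → κ) : Nonempty (Cond c) := by
  have hA : AR fun x : ℕ => 0 < x := AR.lt (.const 0) .id
  have hV : V fun x : ℕ => 0 < x := by
    intro D hD N
    refine ⟨N + 1, by omega, fun r hr => ?_⟩
    rcases mem_FSl_append.1 hr with h | ⟨a, ha, b, hb, rfl⟩
    · exact hD r h
    · rw [mem_FSl_singleton.1 hb]
      omega
  obtain ⟨A', h1, h2, h3, h4⟩ := refine_types hA hV c [0]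
  obtain ⟨x₀, -, hx⟩ := h2 [] (In_nil _) 0
  have hx₀ : A' x₀ := hx x₀ (mem_FSl_singleton.2 rfl)
  refine ⟨⟨[], [0], fun u => c (u + x₀), A', c x₀, h1, h2, ?_, ?_, ?_, ?_⟩⟩
  · exact h4 x₀ hx₀
  · intro r hr
    simp [FSl] at hr
  · intro x hx r hr
    have h0 : r = 0 := by simpa [FS0, FSl] using hr
    have := hx 0 (by simp)
    rw [h0]
    simpa using this
  · exact ⟨.nil, by simp⟩

/-- the cover step -/
theorem cover_step (p : Cond c) (hc : ∀ i, AR fun x => c x = i) {Φ : List ℕ → Prop}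
    (hΦ : ∀ E, Φ E → Srt (p.σ ++ E)) (h : Covers c p.S p.δ p.A Φ) :
    ∃ p' : Cond c, p'.Le p ∧ ∃ E, Φ E ∧ p'.σ = p.σ ++ E := by
  obtain ⟨𝓑, hin, hV, hcov⟩ := h
  obtain ⟨A', h1, h2, h3, h4⟩ := refine_types (AR_VS1 (S := p.S) hc p.hA 𝓑) hV c
    (p.S.flatMap fun u => (FS0 𝓑.flatten).map fun r => u + r)
  have hsub : ∀ x, A' x → p.A x := fun x hx => by
    have := (h3 x hx).1 0 (zero_mem_FS0 _)
    rwa [zero_add] at this
  obtain ⟨x₀, hx₀, hG⟩ := p.pers A' h1 h2 hsub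
  obtain ⟨E, hE, h5⟩ := hcov x₀ (h3 x₀ hx₀) hG
  have h6 : ∀ x, G c (p.S.flatMap fun u => (FS0 𝓑.flatten).map fun r => u + r)
      (fun u => c (u + x₀)) x → ∀ r ∈ FS0 E, G c p.S p.δ (r + x) := by
    intro x hx r hr u hu
    have hr' : r ∈ FS0 𝓑.flatten ∧ G c p.S p.δ (r + x₀) := by
      rcases mem_FS0_iff.1 hr with rfl | h
      · exact ⟨zero_mem_FS0 _, by rw [zero_add]; exact hG⟩
      · exact ⟨FS0_of_FSl (h5 r h).1, (h5 r h).2.2⟩
    have h7 := hx (u + r) (List.mem_flatMap.2 ⟨u, hu, List.mem_map.2 ⟨r, hr'.1, rfl⟩⟩)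
    have h8 := hr'.2 u hu
    simp only at h7
    rw [← add_assoc, h7, add_assoc]
    exact h8
  refine ⟨⟨p.σ ++ E, p.S.flatMap fun u => (FS0 𝓑.flatten).map fun r => u + r,
    fun u => c (u + x₀), A', p.i, h1, h2, h4 x₀ hx₀, ?_, ?_, hΦ E hE⟩, ?_, E, hE, rfl⟩
  · intro r hr
    rcases mem_FSl_append.1 hr with h | ⟨a, ha, b, hb, rfl⟩
    · exact p.hσ r h
    · exact p.comp b (h5 b hb).2.1 a ha
  · intro x hx r hr
    obtain ⟨a, ha, b, hb, rfl⟩ := mem_FS0_append.1 hr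
    rw [add_assoc]
    exact p.comp _ (h6 x hx b hb) a ha
  · refine ⟨E, rfl, fun r hr => hin r (h5 r hr).1, fun r hr => (h5 r hr).2.1, ?_, h6, rfl⟩
    intro x hx r hr
    refine (h3 x hx).1 r ?_
    rcases mem_FS0_iff.1 hr with rfl | h
    · exact zero_mem_FS0 _
    · exact FS0_of_FSl (h5 r h).1

/-- the avoid step -/
theorem avoid_step (p : Cond c) (hc : ∀ i, AR fun x => c x = i) {Φ : List ℕ → Prop}
    (hΦ : AR Φ) (h : ¬ Covers c p.S p.δ p.A Φ) :
    ∃ p' : Cond c, p'.Le p ∧ ∀ p'' : Cond c, p''.Le p' → ∀ E, p''.σ = p.σ ++ E → ¬ Φ E := by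
  obtain ⟨Z, h1, h2, h3, h4⟩ := dichotomy hc p.hA p.hV hΦ h
  have h0 : ∀ r, r ∈ FS0 [] → r = 0 := fun r hr => by simpa [FS0, FSl] using hr
  refine ⟨⟨p.σ, p.S, p.δ, Z, p.i, h1, h2, fun A' h5 h6 h7 => p.pers A' h5 h6 fun x hx =>
    h3 x (h7 x hx), p.hσ, p.comp, p.srt⟩, ?_, ?_⟩
  · refine ⟨[], by simp, In_nil _, fun r hr => by simp [FSl] at hr, fun x hx r hr => ?_,
      fun x hx r hr => ?_, rfl⟩
    · rw [h0 r hr, zero_add]
      exact h3 x hx
    · rw [h0 r hr, zero_add]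
      exact hx
  · rintro p'' ⟨E', h5, h6, h7, -⟩ E hE hΦE
    simp only at h5 h6 h7
    have : E' = E := by
      rw [h5] at hE
      exact List.append_cancel_left hE
    subst this
    obtain ⟨r, hr, h8⟩ := h4 E' hΦE h6
    exact h8 (h7 r hr)

theorem AR_Srt {π : Type*} [Primcodable π] {f : π → List ℕ} (hf : Primrec f) :
    AR fun p => Srt (f p) := by
  refine AR.and ?_ ?_
  · have h1 : AR fun p : π => ∀ i : ℕ, ∀ j : ℕ, ∀ a : ℕ, ∀ b : ℕ, i < j →
        (f p)[i]? = some a → (f p)[j]? = some b → a < b := by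
      refine AR.all (AR.all (AR.all (AR.all (AR.imp ?_ (AR.imp ?_ (AR.imp ?_ ?_))))))
      · exact AR.lt (Primrec.snd.comp (Primrec.fst.comp (Primrec.fst.comp .fst)))
          (Primrec.snd.comp (Primrec.fst.comp .fst))
      · exact AR.eq (Primrec.list_getElem?.comp (hf.comp (Primrec.fst.comp (Primrec.fst.comp
          (Primrec.fst.comp .fst)))) (Primrec.snd.comp (Primrec.fst.comp (Primrec.fst.comp .fst))))
          (Primrec.option_some.comp (Primrec.snd.comp .fst))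
      · exact AR.eq (Primrec.list_getElem?.comp (hf.comp (Primrec.fst.comp (Primrec.fst.comp
          (Primrec.fst.comp .fst)))) (Primrec.snd.comp (Primrec.fst.comp .fst)))
          (Primrec.option_some.comp .snd)
      · exact AR.lt (Primrec.snd.comp .fst) .snd
    refine h1.congr fun p => ?_
    rw [List.pairwise_iff_getElem]
    constructor
    · intro h i j hi hj hij
      exact h i j _ _ hij (List.getElem?_eq_getElem hi) (List.getElem?_eq_getElem hj)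
    · intro h i j a b hij ha hb
      obtain ⟨hi, rfl⟩ := List.getElem?_eq_some_iff.1 ha
      obtain ⟨hj, rfl⟩ := List.getElem?_eq_some_iff.1 hb
      exact h i j hi hj hij
  · exact AR.allIn hf (AR.lt (.const 0) .snd)

/-- stems can be extended -/
theorem length_step (p : Cond c) (hc : ∀ i, AR fun x => c x = i) :
    ∃ p' : Cond c, p'.Le p ∧ p.σ.length < p'.σ.length := by
  have hΦ : AR fun E : List ℕ => Srt (p.σ ++ E) ∧ E ≠ [] :=
    (AR_Srt (Primrec.list_append.comp (.const p.σ) .id)).and (AR.eq .id (.const [])).not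
  by_cases h : Covers c p.S p.δ p.A fun E : List ℕ => Srt (p.σ ++ E) ∧ E ≠ []
  · obtain ⟨p', h1, E, h2, h3⟩ := cover_step p hc (fun E hE => hE.1) h
    refine ⟨p', h1, ?_⟩
    rw [h3, List.length_append]
    have := List.length_pos_iff.2 h2.2
    omega
  · exfalso
    obtain ⟨Z, h1, h2, h3, h4⟩ := dichotomy hc p.hA p.hV hΦ h
    obtain ⟨x, ⟨hx, hxN⟩, hG⟩ := p.pers (fun x => Z x ∧ p.σ.sum < x)
      (h1.and (AR.lt (.const _) .id)) (V_gt h2 _) (fun x hx => h3 x hx.1)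
    have hs : Srt (p.σ ++ [x]) := by
      refine ⟨?_, ?_⟩
      · rw [List.pairwise_append]
        refine ⟨p.srt.1, by simp, fun a ha b hb => ?_⟩
        have h6 : b = x := by simpa using hb
        have h7 : a ≤ p.σ.sum := List.le_sum_of_mem ha
        omega
      · intro a ha
        rcases List.mem_append.1 ha with h6 | h6
        · exact p.srt.2 a h6
        · have h7 : a = x := by simpa using h6
          omega
    obtain ⟨r, hr, h5⟩ := h4 [x] ⟨hs, by simp⟩ (fun r hr => by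
      rw [mem_FSl_singleton.1 hr]
      exact hx)
    rw [mem_FSl_singleton.1 hr] at h5
    exact h5 hG

/-- a requirement can be met -/
theorem req_step (p : Cond c) (hc : ∀ i, AR fun x => c x = i) {W : List ℕ → ℕ → Prop}
    (hW : AR fun q : List ℕ × ℕ => W q.1 q.2) {C : ℕ → Prop} (hC : ¬ AR C) :
    ∃ p' : Cond c, p'.Le p ∧ ∃ m, (W p'.σ m ∧ ¬ C m) ∨
      (C m ∧ ∀ p'' : Cond c, p''.Le p' → ¬ W p''.σ m) := by
  have hΦ : AR fun q : ℕ × List ℕ => Srt (p.σ ++ q.2) ∧ W (p.σ ++ q.2) q.1 := by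
    refine AR.and (AR_Srt (Primrec.list_append.comp (.const p.σ) .snd)) ?_
    exact hW.sub (f := fun q : ℕ × List ℕ => (p.σ ++ q.2, q.1))
      (Primrec.pair (Primrec.list_append.comp (.const p.σ) .snd) .fst)
  have ha := AR_Covers (S := p.S) (δ := p.δ) hc p.hA
    (Φ := fun m E => Srt (p.σ ++ E) ∧ W (p.σ ++ E) m) hΦ
  have hex : ∃ m, ¬ (Covers c p.S p.δ p.A (fun E => Srt (p.σ ++ E) ∧ W (p.σ ++ E) m) ↔ C m) := by
    by_contra hno
    push Not at hno
    exact hC (ha.congr fun m => by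
      have := hno m
      tauto)
  obtain ⟨m, hm⟩ := hex
  by_cases h : Covers c p.S p.δ p.A fun E => Srt (p.σ ++ E) ∧ W (p.σ ++ E) m
  · obtain ⟨p', h1, E, h2, h3⟩ := cover_step p hc (fun E hE => hE.1) h
    refine ⟨p', h1, m, Or.inl ⟨?_, ?_⟩⟩
    · rw [h3]
      exact h2.2
    · intro hCm
      exact hm ⟨fun _ => hCm, fun _ => h⟩
  · have hCm : C m := by
      by_contra hCm
      exact hm ⟨fun h' => absurd h' h, fun h' => absurd h' hCm⟩
    obtain ⟨p', h1, h2⟩ := avoid_step p hc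
      (hΦ.sub (f := fun E : List ℕ => (m, E)) (Primrec.pair (.const m) .id)) h
    refine ⟨p', h1, m, Or.inr ⟨hCm, fun p'' h3 hWm => ?_⟩⟩
    obtain ⟨E, h4, -⟩ := h3.trans h1
    refine h2 p'' h3 E h4 ⟨?_, ?_⟩
    · have := p''.srt
      rwa [h4] at this
    · simp only
      rw [← h4]
      exact hWm

end

end Pool.Agent.Work.MP_69fea5_lc.PT
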